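import Pool.Agent.X2.PalDefect

/-! A word with `T_u(n) = 0` for all large `n` but with arbitrarily long factors whose longest
palindromic suffix occurs twice. -/

namespace Pool.Agent.Results.MP_18fb49_co.NoUnioccurrence

open Pool.Agent.X2.PalDefect

/-- `W 0 = bcabacb`, `W (n+1) = W n a^(n+2) W n` with `a = 0`, `b = 1`, `c = 2`. -/
def W : ℕ → List (Fin 3)
  | 0 => [1, 2, 0, 1, 0, 2, 1]
  | n + 1 => W n ++ List.replicate (n + 2) 0 ++ W n

/-- The limit word. -/
def u (i : ℕ) : Fin 3 := (W i)[i]?.getD 0

/-- lengths -/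
def L (n : ℕ) : ℕ := (W n).length

lemma L_succ (n : ℕ) : L (n + 1) = 2 * L n + (n + 2) := by
  simp only [L, W, List.length_append, List.length_replicate]
  ring

lemma L_zero : L 0 = 7 := rfl

lemma L_gt (n : ℕ) : n + 7 ≤ L n := by
  induction n with
  | zero => simp [L_zero]
  | succ n ih => rw [L_succ]; omega

lemma W_get (n k i : ℕ) (hi : i < L n) : (W (n + k))[i]? = (W n)[i]? := by
  induction k with
  | zero => rfl
  | succ k ih =>
    rw [← ih, ← add_assoc]
    have hlen : L n ≤ L (n + k) := by
      clear ih
      induction k with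
      | zero => exact le_rfl
      | succ k ih2 => rw [← add_assoc, L_succ]; omega
    simp only [W, List.append_assoc]
    rw [List.getElem?_append_left (by simp only [L] at hi hlen; omega)]

lemma u_eq {n i : ℕ} (hi : i < L n) : u i = (W n)[i]?.getD 0 := by
  unfold u
  rcases le_total i n with h | h
  · obtain ⟨k, rfl⟩ := Nat.exists_eq_add_of_le h
    rw [W_get i k i (by have := L_gt i; omega)]
  · obtain ⟨k, hk⟩ := Nat.exists_eq_add_of_le h
    congr 1
    have := W_get n k i hi
    rw [← hk] at this
    exact this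

lemma u_mid {n t : ℕ} (ht : t < n + 2) : u (L n + t) = 0 := by
  rw [u_eq (n := n + 1) (by rw [L_succ]; omega)]
  simp only [W, List.append_assoc]
  rw [List.getElem?_append_right (by simp [L]), List.getElem?_append_left (by simp [L]; omega)]
  have h : (List.replicate (n + 2) (0 : Fin 3))[L n + t - (W n).length]? = some 0 := by
    have h2 : L n + t - (W n).length = t := by simp [L]
    rw [h2, List.getElem?_replicate, if_pos ht]
  rw [h]
  rfl

lemma u_shift {n t : ℕ} (ht : t < L n) : u (L n + (n + 2) + t) = u t := by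
  rw [u_eq (n := n + 1) (by rw [L_succ]; omega), u_eq ht]
  simp only [W]
  rw [List.getElem?_append_right (by simp [L])]
  simp [L]

lemma u_small : u 0 = 1 ∧ u 1 = 2 ∧ u 2 = 0 ∧ u 3 = 1 ∧ u 4 = 0 ∧ u 5 = 2 ∧ u 6 = 1 := by
  have h : ∀ i < 7, u i = (W 0)[i]?.getD 0 := fun i hi => u_eq hi
  refine ⟨?_, ?_, ?_, ?_, ?_, ?_, ?_⟩ <;> rw [h _ (by norm_num)] <;> rfl

lemma u_last (n : ℕ) : u (L n - 1) = 1 := by
  induction n with
  | zero => exact u_small.2.2.2.2.2.2
  | succ n ih =>
    have h1 := L_gt n
    have : L (n + 1) - 1 = L n + (n + 2) + (L n - 1) := by rw [L_succ]; omega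
    rw [this, u_shift (by omega), ih]

/-- `a^(n+2)` does not occur in `W n`. -/
lemma no_run (n : ℕ) : ∀ i, i + (n + 2) ≤ L n → ∃ t < n + 2, u (i + t) ≠ 0 := by
  induction n with
  | zero =>
    intro i hi
    rw [L_zero] at hi
    obtain ⟨h0, h1, h2, h3, h4, h5, h6⟩ := u_small
    have : i ≤ 5 := by omega
    interval_cases i
    · exact ⟨0, by norm_num, by rw [h0]; decide⟩
    · exact ⟨0, by norm_num, by rw [h1]; decide⟩
    · exact ⟨1, by norm_num, by rw [h3]; decide⟩
    · exact ⟨0, by norm_num, by rw [h3]; decide⟩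
    · exact ⟨1, by norm_num, by rw [h5]; decide⟩
    · exact ⟨0, by norm_num, by rw [h5]; decide⟩
  | succ n ih =>
    intro i hi
    have hL := L_gt n
    rw [L_succ] at hi
    by_cases h1 : i ≤ L n - 1 ∧ L n - 1 < i + (n + 3)
    · refine ⟨L n - 1 - i, by omega, ?_⟩
      rw [show i + (L n - 1 - i) = L n - 1 by omega, u_last]
      decide
    · by_cases h2 : i ≤ L n + (n + 2) ∧ L n + (n + 2) < i + (n + 3)
      · refine ⟨L n + (n + 2) - i, by omega, ?_⟩
        have h3 := u_shift (n := n) (t := 0) (by omega)
        rw [show i + (L n + (n + 2) - i) = L n + (n + 2) + 0 by omega, h3, u_small.1]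
        decide
      · rcases Nat.lt_or_ge i (L n) with h3 | h3
        · obtain ⟨t, ht, ht2⟩ := ih i (by omega)
          exact ⟨t, by omega, ht2⟩
        · obtain ⟨t, ht, ht2⟩ := ih (i - (L n + (n + 2))) (by omega)
          refine ⟨t, by omega, ?_⟩
          have h4 := u_shift (n := n) (t := i - (L n + (n + 2)) + t) (by omega)
          rw [show L n + (n + 2) + (i - (L n + (n + 2)) + t) = i + t by omega] at h4
          rw [h4]
          exact ht2

/-- `W m` occurs in `W (m+1)` only as prefix and suffix. -/
lemma occ_only (m p : ℕ) (hp : p + L m ≤ L (m + 1)) (h : ∀ t < L m, u (p + t) = u t) :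
    p = 0 ∨ p = L m + (m + 2) := by
  have hL := L_gt m
  rw [L_succ] at hp
  by_contra hcon
  push Not at hcon
  rcases Nat.lt_or_ge (L m) p with h1 | h1
  · -- the first letter lies in the run
    have h2 := h 0 (by omega)
    rw [u_small.1, show p + 0 = L m + (p - L m) by omega, u_mid (by omega)] at h2
    exact absurd h2 (by decide)
  · rcases Nat.lt_or_ge p (m + 3) with h2 | h2
    · have h3 := h (L m - 1) (by omega)
      rw [u_last, show p + (L m - 1) = L m + (p - 1) by omega, u_mid (by omega)] at h3
      exact absurd h3 (by decide)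
    · obtain ⟨t, ht, ht2⟩ := no_run m (L m - p) (by omega)
      apply ht2
      rw [← h (L m - p + t) (by omega), show p + (L m - p + t) = L m + t by omega]
      exact u_mid ht

lemma pal_W (n : ℕ) : ∀ t < L n, u t = u (L n - 1 - t) := by
  induction n with
  | zero =>
    intro t ht
    rw [L_zero] at ht ⊢
    obtain ⟨h0, h1, h2, h3, h4, h5, h6⟩ := u_small
    interval_cases t <;> simp [h0, h1, h2, h3, h4, h5, h6]
  | succ n ih =>
    intro t ht
    rw [L_succ] at ht ⊢
    rcases Nat.lt_or_ge t (L n) with h1 | h1
    · rw [ih t h1, show 2 * L n + (n + 2) - 1 - t = L n + (n + 2) + (L n - 1 - t) by omega,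
        u_shift (by omega)]
    · rcases Nat.lt_or_ge t (L n + (n + 2)) with h2 | h2
      · rw [show t = L n + (t - L n) by omega, u_mid (by omega),
          show 2 * L n + (n + 2) - 1 - (L n + (t - L n)) = L n + (n + 1 - (t - L n)) by omega,
          u_mid (by omega)]
      · have h3 := u_shift (n := n) (t := t - (L n + (n + 2))) (by omega)
        rw [show L n + (n + 2) + (t - (L n + (n + 2))) = t by omega] at h3
        rw [h3, ih _ (by omega)]
        congr 1
        omega

open Classical in
lemma card_step (m : ℕ) : (pals (fac u 0 (L (m + 1)))).card + (L (m + 2) - L (m + 1))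
    ≤ (pals (fac u 0 (L (m + 2)))).card := by
  have hL := L_gt m
  have hL1 : L (m + 1) = 2 * L m + (m + 2) := L_succ m
  have hL2 : L (m + 2) = 2 * L (m + 1) + (m + 3) := L_succ (m + 1)
  -- values used for the palindromes `0^j (W m) 0^j`
  have hval1 : ∀ s < m + 2, u (L m + s) = 0 := fun s hs => u_mid hs
  have hval2 : ∀ s < L m, u (L m + (m + 2) + s) = u s := fun s hs => u_shift hs
  have hval3 : ∀ s < m + 3, u (L (m + 1) + s) = 0 := fun s hs => u_mid hs
  set X := pals (fac u 0 (L (m + 1))) with hX
  set F := (Finset.Icc 1 (m + 2)).image (fun j => fac u (L m + (m + 2) - j) (L m + 2 * j))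
    with hF
  set G := (Finset.range (L (m + 1) + 1)).image (fun c => fac u c (L (m + 2) - 2 * c)) with hG
  have cF : F.card = m + 2 := by
    rw [hF, Finset.card_image_of_injOn, Nat.card_Icc]
    · omega
    · intro a _ b _ hab
      have := congrArg List.length hab
      simp only [length_fac] at this
      omega
  have cG : G.card = L (m + 1) + 1 := by
    rw [hG, Finset.card_image_of_injOn, Finset.card_range]
    intro a ha b hb hab
    have := congrArg List.length hab
    simp only [length_fac, Finset.coe_range, Set.mem_Iio] at this ha hb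
    omega
  have dXF : Disjoint X F := by
    rw [Finset.disjoint_left]
    intro v hv hv2
    rw [hX, mem_pals] at hv
    rw [hF, Finset.mem_image] at hv2
    obtain ⟨j, hj, rfl⟩ := hv2
    rw [Finset.mem_Icc] at hj
    obtain ⟨i, -, hi1, hi2⟩ := eq_fac_of_infix u hv.1
    rw [length_fac] at hi1 hi2
    rw [fac_eq_iff] at hi2
    have h3 := occ_only m (i + j) (by omega) (by
      intro t ht
      have h4 := hi2 (j + t) (by omega)
      rw [show L m + (m + 2) - j + (j + t) = L m + (m + 2) + t by omega, hval2 t ht] at h4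
      rw [h4]
      congr 1
      ring)
    omega
  have dXG : Disjoint X G := by
    rw [Finset.disjoint_left]
    intro v hv hv2
    rw [hX, mem_pals] at hv
    rw [hG, Finset.mem_image] at hv2
    obtain ⟨c, hc, rfl⟩ := hv2
    rw [Finset.mem_range] at hc
    obtain ⟨i, -, hi1, hi2⟩ := eq_fac_of_infix u hv.1
    rw [length_fac] at hi1 hi2
    rw [fac_eq_iff] at hi2
    obtain ⟨t, ht, ht2⟩ := no_run (m + 1) (i + (L (m + 1) - c)) (by omega)
    apply ht2
    have h4 := hi2 (L (m + 1) - c + t) (by omega)
    rw [show c + (L (m + 1) - c + t) = L (m + 1) + t by omega, hval3 t (by omega)] at h4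
    rw [h4]
    congr 1
    ring
  have dFG : Disjoint F G := by
    rw [Finset.disjoint_left]
    intro v hv hv2
    rw [hF, Finset.mem_image] at hv
    obtain ⟨j, hj, rfl⟩ := hv
    rw [Finset.mem_Icc] at hj
    rw [hG, Finset.mem_image] at hv2
    obtain ⟨c, hc, hc2⟩ := hv2
    rw [Finset.mem_range] at hc
    have hlen := congrArg List.length hc2
    simp only [length_fac] at hlen
    rw [hlen, fac_eq_iff] at hc2
    -- the run `0^(m+3)` would lie inside `0^j (W m) 0^j`
    have hpos : 2 * (L (m + 1) - c) + (m + 3) = L m + 2 * j := by omega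
    by_cases hq : j ≤ L (m + 1) - c
    · -- contained in W m
      obtain ⟨t, ht, ht2⟩ := no_run m (L (m + 1) - c - j) (by omega)
      apply ht2
      have h4 := hc2 (L (m + 1) - c + t) (by omega)
      rw [show c + (L (m + 1) - c + t) = L (m + 1) + t by omega, hval3 t (by omega),
        show L m + (m + 2) - j + (L (m + 1) - c + t)
          = L m + (m + 2) + (L (m + 1) - c - j + t) by omega, hval2 _ (by omega)] at h4
      exact h4.symm
    · -- the first letter of `W m` would be 0
      have h4 := hc2 j (by omega)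
      rw [show L m + (m + 2) - j + j = L m + (m + 2) + 0 by omega, hval2 0 (by omega),
        u_small.1, show c + j = L (m + 1) + (j - (L (m + 1) - c)) by omega,
        hval3 _ (by omega)] at h4
      exact absurd h4 (by decide)
  have hsub : X ∪ (F ∪ G) ⊆ pals (fac u 0 (L (m + 2))) := by
    intro v hv
    rw [Finset.mem_union, Finset.mem_union] at hv
    rcases hv with hv | hv | hv
    · rw [hX, mem_pals] at hv
      rw [mem_pals]
      exact ⟨hv.1.trans (fac_infix u (by omega) (by omega)), hv.2⟩
    · rw [hF, Finset.mem_image] at hv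
      obtain ⟨j, hj, rfl⟩ := hv
      rw [Finset.mem_Icc] at hj
      rw [mem_pals]
      refine ⟨fac_infix u (by omega) (by omega), ?_⟩
      rw [fac_reverse_iff]
      have hleft : ∀ s < j, u (L m + (m + 2) - j + s) = 0 := by
        intro s hs
        rw [show L m + (m + 2) - j + s = L m + (m + 2 - j + s) by omega]
        exact hval1 _ (by omega)
      have hright : ∀ s < j, u (L m + (m + 2) - j + (L m + 2 * j - 1 - s)) = 0 := by
        intro s hs
        rw [show L m + (m + 2) - j + (L m + 2 * j - 1 - s) = L (m + 1) + (j - 1 - s) by omega]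
        exact hval3 _ (by omega)
      have hmid : ∀ s, j ≤ s → s < j + L m → u (L m + (m + 2) - j + s) = u (s - j) := by
        intro s h1 h2
        rw [show L m + (m + 2) - j + s = L m + (m + 2) + (s - j) by omega]
        exact hval2 _ (by omega)
      intro t ht
      rcases Nat.lt_or_ge t j with h1 | h1
      · rw [hleft t h1, hright t h1]
      · rcases Nat.lt_or_ge t (j + L m) with h2 | h2
        · rw [hmid t h1 h2, hmid _ (by omega) (by omega), pal_W m (t - j) (by omega)]
          congr 1
          omega
        · have h3 := hleft (L m + 2 * j - 1 - t) (by omega)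
          have h4 := hright (L m + 2 * j - 1 - t) (by omega)
          rw [h3, show t = L m + 2 * j - 1 - (L m + 2 * j - 1 - t) by omega, h4]
    · rw [hG, Finset.mem_image] at hv
      obtain ⟨c, hc, rfl⟩ := hv
      rw [Finset.mem_range] at hc
      rw [mem_pals]
      refine ⟨fac_infix u (by omega) (by omega), ?_⟩
      rw [fac_reverse_iff]
      intro t ht
      rw [pal_W (m + 2) (c + t) (by omega)]
      congr 1
      omega
  have hc := Finset.card_le_card hsub
  rw [Finset.card_union_of_disjoint (Finset.disjoint_union_right.2 ⟨dXF, dXG⟩),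
    Finset.card_union_of_disjoint dFG, cF, cG] at hc
  omega

open Classical in
lemma card_bound (n : ℕ) : L (n + 1) ≤ (pals (fac u 0 (L (n + 1)))).card + L 1 := by
  induction n with
  | zero => simp
  | succ n ih =>
    have h1 := card_step n
    have h2 : L (n + 2) = 2 * L (n + 1) + (n + 3) := L_succ (n + 1)
    rw [show n + 1 + 1 = n + 2 by ring]
    omega

lemma card_bound_prefix (m : ℕ) :
    m + 1 ≤ {v | v <:+: fac u 0 m ∧ v.reverse = v}.ncard + (L 1 + 1) := by
  classical
  have h0 : {v | v <:+: fac u 0 m ∧ v.reverse = v}.ncard = (pals (fac u 0 m)).card := by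
    rw [← Set.ncard_coe_finset]
    congr 1
    ext v
    rw [Finset.mem_coe, mem_pals]
    rfl
  rw [h0]
  have hstep : ∀ j, (pals (fac u 0 (m + j))).card ≤ (pals (fac u 0 m)).card + j := by
    intro j
    induction j with
    | zero => simp
    | succ j ih =>
      have h1 : fac u 0 (m + (j + 1)) = fac u 0 (m + j) ++ [u (m + j)] := by
        rw [← add_assoc, fac_add]
        simp [fac]
      rw [h1]
      have := card_pals_concat (fac u 0 (m + j)) (u (m + j))
      omega
  have h1 := L_gt (m + 1)
  have h2 := hstep (L (m + 1) - m)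
  rw [show m + (L (m + 1) - m) = L (m + 1) by omega] at h2
  have h3 := card_bound m
  omega

lemma pal_fac (n : ℕ) : (fac u 0 (L n)).reverse = fac u 0 (L n) := by
  rw [fac_reverse_iff]
  intro t ht
  rw [Nat.zero_add, Nat.zero_add]
  exact (pal_W n t ht).symm

lemma closed : ∀ w ∈ Lang u, w.reverse ∈ Lang u := by
  rintro w ⟨i, n, rfl⟩
  have h1 : fac u i n <:+: fac u 0 (L (i + n)) :=
    fac_infix u (by omega) (by have := L_gt (i + n); omega)
  have h2 := List.reverse_infix.2 h1
  rw [pal_fac] at h2
  obtain ⟨j, -, -, h⟩ := eq_fac_of_infix u h2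
  exact ⟨j, _, h⟩

/-- `q` is the longest palindromic suffix of `f`. -/
def IsLongestPalSuffix (q f : List (Fin 3)) : Prop :=
  q <:+ f ∧ q.reverse = q ∧ ∀ p, p <:+ f → p.reverse = p → p.length ≤ q.length

lemma bad_factor (k : ℕ) : fac u (L k + 2) (k + 4) = List.replicate k 0 ++ [1, 2, 0, 1] := by
  have hL := L_gt k
  rw [fac_add]
  congr 1
  · apply List.ext_getElem (by simp)
    intro t h1 h2
    rw [length_fac] at h1
    rw [getElem_fac, List.getElem_replicate, show L k + 2 + t = L k + (2 + t) by ring]
    exact u_mid (by omega)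
  · have h : ∀ t < 4, u (L k + 2 + k + t) = u t := by
      intro t ht
      rw [show L k + 2 + k + t = L k + (k + 2) + t by ring]
      exact u_shift (by omega)
    obtain ⟨h0, h1, h2, h3, -⟩ := u_small
    simp only [fac, List.range_succ, List.range_zero, List.nil_append,
      List.map_cons, List.map_nil, List.cons_append]
    rw [h 0 (by norm_num), h 1 (by norm_num), h 2 (by norm_num), h 3 (by norm_num), h0, h1, h2,
      h3]

lemma lps_bad (k : ℕ) : IsLongestPalSuffix [1] (List.replicate k 0 ++ [1, 2, 0, 1]) := by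
  refine ⟨⟨List.replicate k 0 ++ [1, 2, 0], by simp⟩, rfl, ?_⟩
  intro p hp hpp
  by_contra hcon
  have hlen : 2 ≤ p.length := by
    rw [List.length_singleton] at hcon
    omega
  have h1 : p <+: ([1, 0, 2, 1] ++ List.replicate k 0 : List (Fin 3)) := by
    have := List.reverse_prefix.2 hp
    rw [hpp] at this
    simpa using this
  obtain ⟨s, hs⟩ := h1
  have hget : ∀ i (hi : i < p.length), p[i]? = ([1, 0, 2, 1] ++ List.replicate k 0 :
      List (Fin 3))[i]? := by
    intro i hi
    rw [← hs, List.getElem?_append_left hi]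
  have hrev : ∀ i, i < p.length → p[i]? = p[p.length - 1 - i]? := by
    intro i hi
    conv_lhs => rw [← hpp]
    rw [List.getElem?_reverse hi]
  have h2 := hrev 0 (by omega)
  rw [hget 0 (by omega), hget _ (by omega)] at h2
  have h3 := hrev 1 (by omega)
  rw [hget 1 (by omega), hget _ (by omega)] at h3
  have h4 : p.length - 1 - 0 = p.length - 2 + 1 := by omega
  rw [h4] at h2
  have h5 : p.length - 1 - 1 = p.length - 2 := by omega
  rw [h5] at h3
  generalize hm : p.length - 2 = q at *
  match q, h2, h3 with
  | 0, h2, h3 => simp at h2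
  | 1, h2, h3 => simp at h2
  | 2, h2, h3 => simp at h3
  | q + 3, h2, h3 =>
    have h6 : ([1, 0, 2, 1] ++ List.replicate k 0 : List (Fin 3))[q + 3 + 1]?
        = (List.replicate k (0 : Fin 3))[q]? := by
      rw [List.getElem?_append_right (by simp)]
      simp
    rw [h6, List.getElem?_replicate] at h2
    split_ifs at h2 <;> simp at h2

/-- Q1, negated form: the explicit word `u` has a language closed under reversal with infinitely
many palindromes, `T_u(n) = 0` for all large `n`, and even the defects of its prefixes are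
bounded, but for no `H` is the longest palindromic suffix of each factor of length at least `H`
unioccurrent. -/
theorem result : ∃ u : ℕ → Fin 3,
    (∀ w ∈ Lang u, w.reverse ∈ Lang u) ∧
    {w | w ∈ Lang u ∧ w.reverse = w}.Infinite ∧
    (∃ N, ∀ n ≥ N, T u n = 0) ∧
    (∃ C, ∀ m, m + 1 ≤ {v | v <:+: fac u 0 m ∧ v.reverse = v}.ncard + C) ∧
    ∀ H : ℕ, ∃ f ∈ Lang u, H ≤ f.length ∧ ∃ q, IsLongestPalSuffix q f ∧
      2 ≤ {i | OccursAt q f i}.encard := by
  refine ⟨u, closed, ?_, ?_, ⟨L 1 + 1, card_bound_prefix⟩, ?_⟩
  · intro hfin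
    obtain ⟨N, hN⟩ := (hfin.image List.length).bddAbove
    have h1 : L (N + 1) ≤ N := hN ⟨fac u 0 (L (N + 1)), ⟨⟨0, _, rfl⟩, pal_fac _⟩, by simp⟩
    have := L_gt (N + 1)
    omega
  · apply eventually_T_zero (L 1)
    intro m
    obtain ⟨B, hB⟩ := exists_prefix u m
    refine ⟨fac u 0 (L (B + 1)), ⟨0, _, rfl⟩, pal_fac _, ?_, ?_⟩
    · intro v hv hvl
      exact (hB v hv hvl).trans (fac_infix u le_rfl (by have := L_gt (B + 1); omega))
    · rw [length_fac]
      exact card_bound B
  · intro H
    refine ⟨fac u (L H + 2) (H + 4), ⟨_, _, rfl⟩, by simp, [1], ?_, ?_⟩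
    · rw [bad_factor]
      exact lps_bad H
    · rw [bad_factor]
      have h1 : ({H, H + 3} : Set ℕ) ⊆ {i | OccursAt [1] (List.replicate H (0 : Fin 3)
          ++ [1, 2, 0, 1]) i} := by
        intro i hi
        simp only [Set.mem_insert_iff, Set.mem_singleton_iff] at hi
        rcases hi with rfl | rfl
        · refine ⟨by simp, ?_⟩
          rw [List.drop_append_of_le_length (by simp)]
          simp
        · refine ⟨by simp, ?_⟩
          rw [List.drop_append, List.length_replicate]
          simp
      calc (2 : ℕ∞) = ({H, H + 3} : Set ℕ).encard := by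
            rw [Set.encard_pair (by omega)]
        _ ≤ _ := Set.encard_le_encard h1

end Pool.Agent.Results.MP_18fb49_co.NoUnioccurrence
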